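import Pool.Agent.H634.CS.Fin

/-!
# Grigorieff's theorem fails for class symmetric systems

The definitions are in `Pool.Agent.H634.CS.Defs`: transitive models of Goedel-Bernays class theory
(`Model.IsGB`), names and their values (`val`, `valC`), class symmetric systems (`Sys`, `IsSys`),
hereditarily symmetric names (`HS`), class names (`IsClsName`), the symmetric extension (`symExt`),
the symmetric forcing relation (`Forces`, `AdmitsForcing`), generic filters (`IsGeneric`), and
extensions by class forcing (`classExt`).
-/

set_option linter.all false

namespace Pool.Agent.Results.MP_76c2e0_lc.NoGenericClassExtension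

universe u

open Pool.Agent.H634.CS

/-- There are a transitive model `M` of `GB`, whose sets are all sets of `ZFSet`, and a class
symmetric system `S` of `M` (with a nonempty class of conditions) which admits forcing relations,
such that every condition belongs to a generic filter `G` over `M` for which the
symmetric extension `M[G]_S` is a model of `GB`, and for every class forcing notion `Q` of
`M[G]_S` and every generic filter `H` for `Q` over `M[G]_S`, `G` is not a class of
`M[G]_S[H]`. -/
theorem result :
    ∃ M : Model.{u}, M.IsGB ∧ M.sets = Set.univ ∧ ∃ S : Sys.{u}, IsSys M S ∧ S.P.Nonempty ∧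
      AdmitsForcing M S ∧
      ∀ p ∈ S.P, ∃ G : Set ZFSet.{u}, p ∈ G ∧ IsGeneric M S.P S.le G ∧ (symExt M S G).IsGB ∧
        ∀ Q ∈ (symExt M S G).classes, ∀ leQ ∈ (symExt M S G).classes, IsPre Q leQ →
          ∀ H : Set ZFSet.{u}, IsGeneric (symExt M S G) Q leQ H →
            G ∉ (classExt (symExt M S G) Q H).classes :=
  final_result

end Pool.Agent.Results.MP_76c2e0_lc.NoGenericClassExtension
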